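import Mathlib

set_option autoImplicit false

namespace Pool.Agent.Results.MP_8ef15a_nt.SumThreeAntipal

/-- `n` is antipalindromic in base 3 -/
def Antipalindromic (n : ℕ) : Prop :=
  0 < n ∧ ∀ i < (Nat.digits 3 n).length,
    (Nat.digits 3 n).getD i 0 + (Nat.digits 3 n).getD ((Nat.digits 3 n).length - 1 - i) 0 = 2

/-- `Q L y`: `y` is the value of an antipalindromic base 3 digit string of length `L`
(leading zeros allowed). -/
inductive Q : ℕ → ℕ → Prop
  | zero : Q 0 0
  | one : Q 1 1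
  | step (L y d : ℕ) (hd : d ≤ 2) (h : Q L y) : Q (L + 2) ((2 - d) + 3 * y + d * 3 ^ (L + 1))

theorem Q.exists_list {L y : ℕ} (h : Q L y) :
    ∃ D : List ℕ, D.length = L ∧ (∀ d ∈ D, d < 3) ∧ (D.map fun d => 2 - d) = D.reverse ∧
      Nat.ofDigits 3 D = y := by
  induction h with
  | zero => exact ⟨[], rfl, by simp, rfl, rfl⟩
  | one => exact ⟨[1], rfl, by simp, rfl, rfl⟩
  | step L y d hd h ih =>
    obtain ⟨D, hlen, hlt, hrev, hval⟩ := ih
    refine ⟨(2 - d) :: D ++ [d], by simp [hlen], ?_, ?_, ?_⟩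
    · intro x hx
      simp only [List.cons_append, List.mem_cons, List.mem_append, List.not_mem_nil, or_false] at hx
      rcases hx with h1 | h1 | h1
      · omega
      · exact hlt x h1
      · omega
    · have h2 : 2 - (2 - d) = d := by omega
      simp [hrev, h2]
    · rw [List.cons_append, Nat.ofDigits_cons, Nat.ofDigits_append, Nat.ofDigits_singleton, hval,
        hlen]
      ring

theorem anti_of_Q {L y d : ℕ} (h : Q L y) (hd1 : 1 ≤ d) (hd2 : d ≤ 2) :
    Antipalindromic ((2 - d) + 3 * y + d * 3 ^ (L + 1)) := by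
  obtain ⟨D, hlen, hlt, hrev, hval⟩ := h.exists_list
  have hval' : Nat.ofDigits 3 ((2 - d) :: D ++ [d]) = (2 - d) + 3 * y + d * 3 ^ (L + 1) := by
    rw [List.cons_append, Nat.ofDigits_cons, Nat.ofDigits_append, Nat.ofDigits_singleton, hval,
        hlen]
    ring
  have hdig : Nat.digits 3 ((2 - d) + 3 * y + d * 3 ^ (L + 1)) = (2 - d) :: D ++ [d] := by
    rw [← hval']
    apply Nat.digits_ofDigits 3 (by norm_num)
    · intro x hx
      simp only [List.cons_append, List.mem_cons, List.mem_append, List.not_mem_nil, or_false] at hx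
      rcases hx with h1 | h1 | h1
      · omega
      · exact hlt x h1
      · omega
    · intro _
      simp
      omega
  have hmap : (((2 - d) :: D ++ [d]).map fun d => 2 - d) = ((2 - d) :: D ++ [d]).reverse := by
    have h2 : 2 - (2 - d) = d := by omega
    simp [hrev, h2]
  have hle : ∀ x ∈ ((2 - d) :: D ++ [d]), x ≤ 2 := by
    intro x hx
    simp only [List.cons_append, List.mem_cons, List.mem_append, List.not_mem_nil, or_false] at hx
    rcases hx with h1 | h1 | h1
    · omega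
    · have := hlt x h1
      omega
    · omega
  refine ⟨by positivity, ?_⟩
  rw [hdig]
  set E := (2 - d) :: D ++ [d] with hE
  intro i hi
  have h1 : E.getD i 0 = E[i] := by
    rw [List.getD_eq_getElem _ _ hi]
  have hi' : E.length - 1 - i < E.length := by omega
  have h2 : E.getD (E.length - 1 - i) 0 = E[E.length - 1 - i] := by
    rw [List.getD_eq_getElem _ _ hi']
  have h3 : E[E.length - 1 - i] = E.reverse[i]'(by simpa using hi) := by
    rw [List.getElem_reverse]
  have h4 : E.reverse[i]'(by simpa using hi) = 2 - E[i] := by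
    have : E.reverse[i]'(by simpa using hi) = (E.map fun d => 2 - d)[i]'(by simpa using hi) := by
      congr 1
      exact hmap.symm
    rw [this, List.getElem_map]
  have h5 : E[i] ≤ 2 := hle _ (List.getElem_mem hi)
  rw [h1, h2, h3, h4]
  omega

theorem anti_one : Antipalindromic 1 := by
  refine ⟨one_pos, ?_⟩
  simp


/-- sumset steps: `maskFrom m vs` has bit `x` only if `x = y + ∑ d_v v` with `y` a bit of `m`. -/
def maskFrom : ℕ → List ℕ → ℕ
  | m, [] => m
  | m, v :: vs => maskFrom (Nat.lor m (Nat.lor (Nat.shiftLeft m v) (Nat.shiftLeft m (2 * v)))) vs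

inductive G : List ℕ → ℕ → Prop
  | nil : G [] 0
  | cons (v : ℕ) (vs : List ℕ) (x d : ℕ) (hd : d ≤ 2) (h : G vs x) : G (v :: vs) (x + d * v)

theorem testBit_shl {m v x : ℕ} (h : (Nat.shiftLeft m v).testBit x = true) :
    v ≤ x ∧ m.testBit (x - v) = true := by
  have h' : (m <<< v).testBit x = true := h
  rw [Nat.testBit_shiftLeft] at h'
  simpa using h'

theorem testBit_lor' {a b x : ℕ} (h : (Nat.lor a b).testBit x = true) :
    a.testBit x = true ∨ b.testBit x = true := by
  have h' : (a ||| b).testBit x = true := h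
  rw [Nat.testBit_or] at h'
  simpa using h'

theorem maskFrom_spec : ∀ (vs : List ℕ) (m x : ℕ), (maskFrom m vs).testBit x = true →
    ∃ y z, m.testBit y = true ∧ G vs z ∧ x = y + z := by
  intro vs
  induction vs with
  | nil => intro m x h; exact ⟨x, 0, h, G.nil, by simp⟩
  | cons v vs ih =>
    intro m x h
    obtain ⟨y, z, hy, hz, hx⟩ := ih _ _ h
    rcases testBit_lor' hy with h1 | h1
    · exact ⟨y, z + 0 * v, h1, G.cons v vs z 0 (by omega) hz, by omega⟩
    · rcases testBit_lor' h1 with h2 | h2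
      · obtain ⟨h3, h4⟩ := testBit_shl h2
        exact ⟨y - v, z + 1 * v, h4, G.cons v vs z 1 (by omega) hz, by omega⟩
      · obtain ⟨h3, h4⟩ := testBit_shl h2
        exact ⟨y - 2 * v, z + 2 * v, h4, G.cons v vs z 2 (by omega) hz, by omega⟩

theorem G.map_three {vs : List ℕ} : ∀ {x : ℕ}, G (vs.map fun v => 3 * v) x →
    ∃ z, G vs z ∧ x = 3 * z := by
  induction vs with
  | nil => intro x h; cases h; exact ⟨0, G.nil, rfl⟩
  | cons v vs ih =>
    intro x h
    rw [List.map_cons] at h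
    cases h with
    | cons _ _ x d hd h =>
      obtain ⟨z, hz, hx⟩ := ih h
      exact ⟨z + d * v, G.cons v vs z d hd hz, by rw [hx]; ring⟩

theorem G.append {vs ws : List ℕ} : ∀ {x : ℕ}, G (vs ++ ws) x →
    ∃ a b, G vs a ∧ G ws b ∧ x = a + b := by
  induction vs with
  | nil => intro x h; exact ⟨0, x, G.nil, h, by simp⟩
  | cons v vs ih =>
    intro x h
    rw [List.cons_append] at h
    cases h with
    | cons _ _ x d hd h =>
      obtain ⟨a, b, ha, hb, hx⟩ := ih h
      exact ⟨a + d * v, b, G.cons v vs a d hd ha, hb, by rw [hx]; ring⟩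

/-- the step sizes `3 ^ (L-1-t) - 3 ^ t` -/
def steps : ℕ → List ℕ
  | 0 => []
  | 1 => []
  | L + 2 => (3 ^ (L + 1) - 1) :: (steps L).map fun v => 3 * v

/-- the least value of an antipalindromic string -/
def base : ℕ → ℕ
  | 0 => 0
  | 1 => 1
  | L + 2 => 2 + 3 * base L

theorem Q_of_G : ∀ (L x : ℕ), G (steps L) x → Q L (base L + x)
  | 0, x, h => by cases h; exact Q.zero
  | 1, x, h => by cases h; exact Q.one
  | L + 2, x, h => by
    rw [steps] at h
    cases h with
    | cons _ _ x d hd h =>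
      obtain ⟨z, hz, hx⟩ := h.map_three
      have := Q.step L (base L + z) d hd (Q_of_G L z hz)
      have h3 : 1 ≤ 3 ^ (L + 1) := Nat.one_le_pow _ _ (by norm_num)
      have hE : base (L + 2) + (x + d * (3 ^ (L + 1) - 1))
          = (2 - d) + 3 * (base L + z) + d * 3 ^ (L + 1) := by
        rw [base, hx]
        obtain ⟨p, hp⟩ : ∃ p, 3 ^ (L + 1) = p + 1 := ⟨3 ^ (L + 1) - 1, by omega⟩
        rw [hp]
        have hd' : d = 0 ∨ d = 1 ∨ d = 2 := by omega
        rcases hd' with rfl | rfl | rfl <;> simp <;> ring_nf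
      rw [hE]
      exact this

/-- sum of three strings of prescribed lengths -/
def Sum3 (L1 L2 L3 R : ℕ) : Prop :=
  ∃ y1 y2 y3, Q L1 y1 ∧ Q L2 y2 ∧ Q L3 y3 ∧ R = y1 + y2 + y3

def pat (K : ℕ) : ℕ := (4 ^ K - 1) / 3

theorem pat_succ (K : ℕ) : pat (K + 1) = 1 + 4 * pat K := by
  unfold pat
  have h : ∀ K, ∃ q, 4 ^ K = 3 * q + 1 := by
    intro K
    induction K with
    | zero => exact ⟨0, rfl⟩
    | succ K ih =>
      obtain ⟨q, hq⟩ := ih
      exact ⟨4 * q + 1, by rw [pow_succ, hq]; ring⟩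
  obtain ⟨q, hq⟩ := h K
  rw [pow_succ, hq]
  omega

theorem pat_testBit : ∀ K k, k < K → (pat K).testBit (2 * k) = true := by
  intro K
  induction K with
  | zero => intro k hk; omega
  | succ K ih =>
    intro k hk
    rw [pat_succ]
    cases k with
    | zero => 
      have : (1 + 4 * pat K) % 2 = 1 := by omega
      simp [Nat.testBit_zero, this]
    | succ k =>
      have h1 : 2 * (k + 1) = (2 * k) + 2 := by ring
      rw [h1]
      have h2 : (1 + 4 * pat K).testBit (2 * k + 2) = ((1 + 4 * pat K) / 2 ^ 2).testBit (2 * k) := by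
        rw [← Nat.testBit_div_two_pow]
      rw [h2]
      have h3 : (1 + 4 * pat K) / 2 ^ 2 = pat K := by omega
      rw [h3]
      exact ih k (by omega)

/-- the mask of the sums of three strings -/
def mask3 (L1 L2 L3 : ℕ) : ℕ :=
  maskFrom (maskFrom (maskFrom 1 (steps L1)) (steps L2)) (steps L3)

theorem testBit_one {x : ℕ} (h : Nat.testBit 1 x = true) : x = 0 :=
  Nat.testBit_one_eq_true_iff_self_eq_zero.1 h

theorem mask3_spec {L1 L2 L3 x : ℕ} (h : (mask3 L1 L2 L3).testBit x = true) :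
    Sum3 L1 L2 L3 (base L1 + base L2 + base L3 + x) := by
  obtain ⟨y1, z1, hy1, hz1, hx1⟩ := maskFrom_spec _ _ _ h
  obtain ⟨y2, z2, hy2, hz2, hx2⟩ := maskFrom_spec _ _ _ hy1
  obtain ⟨y3, z3, hy3, hz3, hx3⟩ := maskFrom_spec _ _ _ hy2
  have h0 := testBit_one hy3
  exact ⟨_, _, _, Q_of_G L1 z3 hz3, Q_of_G L2 z2 hz2, Q_of_G L3 z1 hz1, by omega⟩

theorem base_check {L1 L2 L3 x0 K : ℕ}
    (h : Nat.beq (Nat.land (Nat.shiftRight (mask3 L1 L2 L3) x0) (pat K)) (pat K) = true) :
    ∀ k < K, Sum3 L1 L2 L3 (base L1 + base L2 + base L3 + (x0 + 2 * k)) := by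
  intro k hk
  apply mask3_spec
  have h1 := Nat.eq_of_beq_eq_true h
  have h2 := pat_testBit K k hk
  rw [← h1] at h2
  have h3 : ((mask3 L1 L2 L3 >>> x0) &&& pat K).testBit (2 * k) = true := h2
  rw [Nat.testBit_and, Nat.testBit_shiftRight] at h3
  simp only [Bool.and_eq_true] at h3
  exact h3.1


theorem Sum3.step {L1 L2 L3 R : ℕ} (h : Sum3 L1 L2 L3 R) (d1 d2 d3 : ℕ) (h1 : d1 ≤ 2)
    (h2 : d2 ≤ 2) (h3 : d3 ≤ 2) :
    Sum3 (L1 + 2) (L2 + 2) (L3 + 2) ((2 - d1) + (2 - d2) + (2 - d3) + 3 * R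
      + (d1 * 3 ^ (L1 + 1) + d2 * 3 ^ (L2 + 1) + d3 * 3 ^ (L3 + 1))) := by
  obtain ⟨y1, y2, y3, q1, q2, q3, hR⟩ := h
  exact ⟨_, _, _, Q.step L1 y1 d1 h1 q1, Q.step L2 y2 d2 h2 q2, Q.step L3 y3 d3 h3 q3, by
    rw [hR]; ring⟩

/-- all `R` of the right parity in the prescribed interval are sums of three strings -/
def Inner (a b c A B k : ℕ) : Prop :=
  ∀ R : ℕ, R % 2 = ((k + a) + (k + b) + (k + c)) % 2 → A * 3 ^ k ≤ 2 * R + 3 →
    2 * R + 3 ≤ B * 3 ^ k → Sum3 (k + a) (k + b) (k + c) R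

theorem three_pow_odd (k : ℕ) : 3 ^ k % 2 = 1 := by
  induction k with
  | zero => rfl
  | succ k ih => rw [pow_succ]; omega


theorem inner_012_step (k : ℕ) (hk : 2 ≤ k) (ih : Inner 2 1 0 4 22 k) :
    Inner 2 1 0 4 22 (k + 2) := by
  intro R hp hlo hhi
  have hX : 3 ^ (k + 2) = 9 * 3 ^ k := by ring
  rw [hX] at hlo hhi
  have hodd : 3 ^ k % 2 = 1 := three_pow_odd k
  have hbig : 3 ^ 2 ≤ 3 ^ k := Nat.pow_le_pow_right (by norm_num) hk
  norm_num at hbig
  have key : ∀ d1 d2 d3 R' : ℕ, d1 ≤ 2 → d2 ≤ 2 → d3 ≤ 2 →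
      R = (2 - d1) + (2 - d2) + (2 - d3) + 3 * R' + (d1 * 27 + d2 * 9 + d3 * 3) * 3 ^ k →
      R' % 2 = ((k + 2) + (k + 1) + (k + 0)) % 2 → 4 * 3 ^ k ≤ 2 * R' + 3 →
      2 * R' + 3 ≤ 22 * 3 ^ k → Sum3 (k + 2 + 2) (k + 2 + 1) (k + 2 + 0) R := by
    intro d1 d2 d3 R' h1 h2 h3 hR hp' hlo' hhi'
    have h := (ih R' hp' hlo' hhi').step d1 d2 d3 h1 h2 h3
    have e1 : k + 2 + 2 = k + 2 + 2 := by ring
    have e2 : k + 2 + 1 = k + 1 + 2 := by ring
    have e3 : k + 2 + 0 = k + 0 + 2 := by ring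
    rw [e1, e2, e3, hR]
    convert h using 2
    ring
  generalize 3 ^ k = X at *
  have h3 : R % 3 = 0 ∨ R % 3 = 1 ∨ R % 3 = 2 := by omega
  rcases h3 with h3 | h3 | h3
  · rcases lt_or_ge (2 * R + 3) (60 * X) with h | h
    · exact key 0 0 0 ((R - 6 - 0 * X) / 3) (by omega) (by omega) (by omega) (by omega) (by omega) (by omega) (by omega)
    · rcases lt_or_ge (2 * R + 3) (105 * X) with h | h
      · exact key 0 2 1 ((R - 3 - 21 * X) / 3) (by omega) (by omega) (by omega) (by omega) (by omega) (by omega) (by omega)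
      · rcases lt_or_ge (2 * R + 3) (147 * X) with h | h
        · exact key 1 2 0 ((R - 3 - 45 * X) / 3) (by omega) (by omega) (by omega) (by omega) (by omega) (by omega) (by omega)
        · rcases lt_or_ge (2 * R + 3) (180 * X) with h | h
          · exact key 2 1 0 ((R - 3 - 63 * X) / 3) (by omega) (by omega) (by omega) (by omega) (by omega) (by omega) (by omega)
          · exact key 2 2 2 ((R - 0 - 78 * X) / 3) (by omega) (by omega) (by omega) (by omega) (by omega) (by omega) (by omega)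
  · rcases lt_or_ge (2 * R + 3) (87 * X) with h | h
    · exact key 0 1 1 ((R - 4 - 12 * X) / 3) (by omega) (by omega) (by omega) (by omega) (by omega) (by omega) (by omega)
    · rcases lt_or_ge (2 * R + 3) (129 * X) with h | h
      · exact key 1 1 0 ((R - 4 - 36 * X) / 3) (by omega) (by omega) (by omega) (by omega) (by omega) (by omega) (by omega)
      · rcases lt_or_ge (2 * R + 3) (168 * X) with h | h
        · exact key 2 0 0 ((R - 4 - 54 * X) / 3) (by omega) (by omega) (by omega) (by omega) (by omega) (by omega) (by omega)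
        · exact key 2 2 1 ((R - 1 - 75 * X) / 3) (by omega) (by omega) (by omega) (by omega) (by omega) (by omega) (by omega)
  · rcases lt_or_ge (2 * R + 3) (75 * X) with h | h
    · exact key 0 1 0 ((R - 5 - 9 * X) / 3) (by omega) (by omega) (by omega) (by omega) (by omega) (by omega) (by omega)
    · rcases lt_or_ge (2 * R + 3) (114 * X) with h | h
      · exact key 1 0 0 ((R - 5 - 27 * X) / 3) (by omega) (by omega) (by omega) (by omega) (by omega) (by omega) (by omega)
      · rcases lt_or_ge (2 * R + 3) (159 * X) with h | h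
        · exact key 1 2 1 ((R - 2 - 48 * X) / 3) (by omega) (by omega) (by omega) (by omega) (by omega) (by omega) (by omega)
        · exact key 2 2 0 ((R - 2 - 72 * X) / 3) (by omega) (by omega) (by omega) (by omega) (by omega) (by omega) (by omega)

theorem inner_013_step (k : ℕ) (hk : 4 ≤ k) (ih : Inner 3 2 0 10 64 k) :
    Inner 3 2 0 10 64 (k + 2) := by
  intro R hp hlo hhi
  have hX : 3 ^ (k + 2) = 9 * 3 ^ k := by ring
  rw [hX] at hlo hhi
  have hodd : 3 ^ k % 2 = 1 := three_pow_odd k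
  have hbig : 3 ^ 4 ≤ 3 ^ k := Nat.pow_le_pow_right (by norm_num) hk
  norm_num at hbig
  have key : ∀ d1 d2 d3 R' : ℕ, d1 ≤ 2 → d2 ≤ 2 → d3 ≤ 2 →
      R = (2 - d1) + (2 - d2) + (2 - d3) + 3 * R' + (d1 * 81 + d2 * 27 + d3 * 3) * 3 ^ k →
      R' % 2 = ((k + 3) + (k + 2) + (k + 0)) % 2 → 10 * 3 ^ k ≤ 2 * R' + 3 →
      2 * R' + 3 ≤ 64 * 3 ^ k → Sum3 (k + 2 + 3) (k + 2 + 2) (k + 2 + 0) R := by
    intro d1 d2 d3 R' h1 h2 h3 hR hp' hlo' hhi'
    have h := (ih R' hp' hlo' hhi').step d1 d2 d3 h1 h2 h3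
    have e1 : k + 2 + 3 = k + 3 + 2 := by ring
    have e2 : k + 2 + 2 = k + 2 + 2 := by ring
    have e3 : k + 2 + 0 = k + 0 + 2 := by ring
    rw [e1, e2, e3, hR]
    convert h using 2
    ring
  generalize 3 ^ k = X at *
  have h3 : R % 3 = 0 ∨ R % 3 = 1 ∨ R % 3 = 2 := by omega
  rcases h3 with h3 | h3 | h3
  · rcases lt_or_ge (2 * R + 3) (168 * X) with h | h
    · exact key 0 0 0 ((R - 6 - 0 * X) / 3) (by omega) (by omega) (by omega) (by omega) (by omega) (by omega) (by omega)
    · rcases lt_or_ge (2 * R + 3) (303 * X) with h | h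
      · exact key 0 2 1 ((R - 3 - 57 * X) / 3) (by omega) (by omega) (by omega) (by omega) (by omega) (by omega) (by omega)
      · rcases lt_or_ge (2 * R + 3) (435 * X) with h | h
        · exact key 1 2 0 ((R - 3 - 135 * X) / 3) (by omega) (by omega) (by omega) (by omega) (by omega) (by omega) (by omega)
        · rcases lt_or_ge (2 * R + 3) (522 * X) with h | h
          · exact key 2 1 0 ((R - 3 - 189 * X) / 3) (by omega) (by omega) (by omega) (by omega) (by omega) (by omega) (by omega)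
          · exact key 2 2 2 ((R - 0 - 222 * X) / 3) (by omega) (by omega) (by omega) (by omega) (by omega) (by omega) (by omega)
  · rcases lt_or_ge (2 * R + 3) (249 * X) with h | h
    · exact key 0 1 1 ((R - 4 - 30 * X) / 3) (by omega) (by omega) (by omega) (by omega) (by omega) (by omega) (by omega)
    · rcases lt_or_ge (2 * R + 3) (381 * X) with h | h
      · exact key 1 1 0 ((R - 4 - 108 * X) / 3) (by omega) (by omega) (by omega) (by omega) (by omega) (by omega) (by omega)
      · rcases lt_or_ge (2 * R + 3) (492 * X) with h | h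
        · exact key 2 0 0 ((R - 4 - 162 * X) / 3) (by omega) (by omega) (by omega) (by omega) (by omega) (by omega) (by omega)
        · exact key 2 2 1 ((R - 1 - 219 * X) / 3) (by omega) (by omega) (by omega) (by omega) (by omega) (by omega) (by omega)
  · rcases lt_or_ge (2 * R + 3) (219 * X) with h | h
    · exact key 0 1 0 ((R - 5 - 27 * X) / 3) (by omega) (by omega) (by omega) (by omega) (by omega) (by omega) (by omega)
    · rcases lt_or_ge (2 * R + 3) (330 * X) with h | h
      · exact key 1 0 0 ((R - 5 - 81 * X) / 3) (by omega) (by omega) (by omega) (by omega) (by omega) (by omega) (by omega)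
      · rcases lt_or_ge (2 * R + 3) (465 * X) with h | h
        · exact key 1 2 1 ((R - 2 - 138 * X) / 3) (by omega) (by omega) (by omega) (by omega) (by omega) (by omega) (by omega)
        · exact key 2 2 0 ((R - 2 - 216 * X) / 3) (by omega) (by omega) (by omega) (by omega) (by omega) (by omega) (by omega)

theorem inner_023_step (k : ℕ) (hk : 5 ≤ k) (ih : Inner 3 1 0 4 58 k) :
    Inner 3 1 0 4 58 (k + 2) := by
  intro R hp hlo hhi
  have hX : 3 ^ (k + 2) = 9 * 3 ^ k := by ring
  rw [hX] at hlo hhi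
  have hodd : 3 ^ k % 2 = 1 := three_pow_odd k
  have hbig : 3 ^ 5 ≤ 3 ^ k := Nat.pow_le_pow_right (by norm_num) hk
  norm_num at hbig
  have key : ∀ d1 d2 d3 R' : ℕ, d1 ≤ 2 → d2 ≤ 2 → d3 ≤ 2 →
      R = (2 - d1) + (2 - d2) + (2 - d3) + 3 * R' + (d1 * 81 + d2 * 9 + d3 * 3) * 3 ^ k →
      R' % 2 = ((k + 3) + (k + 1) + (k + 0)) % 2 → 4 * 3 ^ k ≤ 2 * R' + 3 →
      2 * R' + 3 ≤ 58 * 3 ^ k → Sum3 (k + 2 + 3) (k + 2 + 1) (k + 2 + 0) R := by
    intro d1 d2 d3 R' h1 h2 h3 hR hp' hlo' hhi'
    have h := (ih R' hp' hlo' hhi').step d1 d2 d3 h1 h2 h3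
    have e1 : k + 2 + 3 = k + 3 + 2 := by ring
    have e2 : k + 2 + 1 = k + 1 + 2 := by ring
    have e3 : k + 2 + 0 = k + 0 + 2 := by ring
    rw [e1, e2, e3, hR]
    convert h using 2
    ring
  generalize 3 ^ k = X at *
  have h3 : R % 3 = 0 ∨ R % 3 = 1 ∨ R % 3 = 2 := by omega
  rcases h3 with h3 | h3 | h3
  · rcases lt_or_ge (2 * R + 3) (114 * X) with h | h
    · exact key 0 0 0 ((R - 6 - 0 * X) / 3) (by omega) (by omega) (by omega) (by omega) (by omega) (by omega) (by omega)
    · rcases lt_or_ge (2 * R + 3) (213 * X) with h | h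
      · exact key 0 2 1 ((R - 3 - 21 * X) / 3) (by omega) (by omega) (by omega) (by omega) (by omega) (by omega) (by omega)
      · rcases lt_or_ge (2 * R + 3) (363 * X) with h | h
        · exact key 1 2 0 ((R - 3 - 99 * X) / 3) (by omega) (by omega) (by omega) (by omega) (by omega) (by omega) (by omega)
        · rcases lt_or_ge (2 * R + 3) (450 * X) with h | h
          · exact key 2 1 0 ((R - 3 - 171 * X) / 3) (by omega) (by omega) (by omega) (by omega) (by omega) (by omega) (by omega)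
          · exact key 2 2 2 ((R - 0 - 186 * X) / 3) (by omega) (by omega) (by omega) (by omega) (by omega) (by omega) (by omega)
  · rcases lt_or_ge (2 * R + 3) (195 * X) with h | h
    · exact key 0 1 1 ((R - 4 - 12 * X) / 3) (by omega) (by omega) (by omega) (by omega) (by omega) (by omega) (by omega)
    · rcases lt_or_ge (2 * R + 3) (345 * X) with h | h
      · exact key 1 1 0 ((R - 4 - 90 * X) / 3) (by omega) (by omega) (by omega) (by omega) (by omega) (by omega) (by omega)
      · rcases lt_or_ge (2 * R + 3) (438 * X) with h | h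
        · exact key 2 0 0 ((R - 4 - 162 * X) / 3) (by omega) (by omega) (by omega) (by omega) (by omega) (by omega) (by omega)
        · exact key 2 2 1 ((R - 1 - 183 * X) / 3) (by omega) (by omega) (by omega) (by omega) (by omega) (by omega) (by omega)
  · rcases lt_or_ge (2 * R + 3) (183 * X) with h | h
    · exact key 0 1 0 ((R - 5 - 9 * X) / 3) (by omega) (by omega) (by omega) (by omega) (by omega) (by omega) (by omega)
    · rcases lt_or_ge (2 * R + 3) (276 * X) with h | h
      · exact key 1 0 0 ((R - 5 - 81 * X) / 3) (by omega) (by omega) (by omega) (by omega) (by omega) (by omega) (by omega)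
      · rcases lt_or_ge (2 * R + 3) (375 * X) with h | h
        · exact key 1 2 1 ((R - 2 - 102 * X) / 3) (by omega) (by omega) (by omega) (by omega) (by omega) (by omega) (by omega)
        · exact key 2 2 0 ((R - 2 - 180 * X) / 3) (by omega) (by omega) (by omega) (by omega) (by omega) (by omega) (by omega)

theorem inner_034_step (k : ℕ) (hk : 7 ≤ k) (ih : Inner 4 1 0 6 164 k) :
    Inner 4 1 0 6 164 (k + 2) := by
  intro R hp hlo hhi
  have hX : 3 ^ (k + 2) = 9 * 3 ^ k := by ring
  rw [hX] at hlo hhi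
  have hodd : 3 ^ k % 2 = 1 := three_pow_odd k
  have hbig : 3 ^ 7 ≤ 3 ^ k := Nat.pow_le_pow_right (by norm_num) hk
  norm_num at hbig
  have key : ∀ d1 d2 d3 R' : ℕ, d1 ≤ 2 → d2 ≤ 2 → d3 ≤ 2 →
      R = (2 - d1) + (2 - d2) + (2 - d3) + 3 * R' + (d1 * 243 + d2 * 9 + d3 * 3) * 3 ^ k →
      R' % 2 = ((k + 4) + (k + 1) + (k + 0)) % 2 → 6 * 3 ^ k ≤ 2 * R' + 3 →
      2 * R' + 3 ≤ 164 * 3 ^ k → Sum3 (k + 2 + 4) (k + 2 + 1) (k + 2 + 0) R := by
    intro d1 d2 d3 R' h1 h2 h3 hR hp' hlo' hhi'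
    have h := (ih R' hp' hlo' hhi').step d1 d2 d3 h1 h2 h3
    have e1 : k + 2 + 4 = k + 4 + 2 := by ring
    have e2 : k + 2 + 1 = k + 1 + 2 := by ring
    have e3 : k + 2 + 0 = k + 0 + 2 := by ring
    rw [e1, e2, e3, hR]
    convert h using 2
    ring
  generalize 3 ^ k = X at *
  have h3 : R % 3 = 0 ∨ R % 3 = 1 ∨ R % 3 = 2 := by omega
  rcases h3 with h3 | h3 | h3
  · rcases lt_or_ge (2 * R + 3) (519 * X) with h | h
    · exact key 0 1 2 ((R - 3 - 15 * X) / 3) (by omega) (by omega) (by omega) (by omega) (by omega) (by omega) (by omega)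
    · rcases lt_or_ge (2 * R + 3) (765 * X) with h | h
      · exact key 1 0 2 ((R - 3 - 249 * X) / 3) (by omega) (by omega) (by omega) (by omega) (by omega) (by omega) (by omega)
      · rcases lt_or_ge (2 * R + 3) (1011 * X) with h | h
        · exact key 1 2 0 ((R - 3 - 261 * X) / 3) (by omega) (by omega) (by omega) (by omega) (by omega) (by omega) (by omega)
        · exact key 2 1 0 ((R - 3 - 495 * X) / 3) (by omega) (by omega) (by omega) (by omega) (by omega) (by omega) (by omega)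
  · rcases lt_or_ge (2 * R + 3) (525 * X) with h | h
    · exact key 0 2 0 ((R - 4 - 18 * X) / 3) (by omega) (by omega) (by omega) (by omega) (by omega) (by omega) (by omega)
    · rcases lt_or_ge (2 * R + 3) (993 * X) with h | h
      · exact key 1 1 0 ((R - 4 - 252 * X) / 3) (by omega) (by omega) (by omega) (by omega) (by omega) (by omega) (by omega)
      · rcases lt_or_ge (2 * R + 3) (1248 * X) with h | h
        · exact key 2 0 0 ((R - 4 - 486 * X) / 3) (by omega) (by omega) (by omega) (by omega) (by omega) (by omega) (by omega)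
        · exact key 2 2 1 ((R - 1 - 507 * X) / 3) (by omega) (by omega) (by omega) (by omega) (by omega) (by omega) (by omega)
  · rcases lt_or_ge (2 * R + 3) (507 * X) with h | h
    · exact key 0 1 0 ((R - 5 - 9 * X) / 3) (by omega) (by omega) (by omega) (by omega) (by omega) (by omega) (by omega)
    · rcases lt_or_ge (2 * R + 3) (762 * X) with h | h
      · exact key 1 0 0 ((R - 5 - 243 * X) / 3) (by omega) (by omega) (by omega) (by omega) (by omega) (by omega) (by omega)
      · rcases lt_or_ge (2 * R + 3) (1017 * X) with h | h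
        · exact key 1 2 1 ((R - 2 - 264 * X) / 3) (by omega) (by omega) (by omega) (by omega) (by omega) (by omega) (by omega)
        · exact key 2 1 1 ((R - 2 - 498 * X) / 3) (by omega) (by omega) (by omega) (by omega) (by omega) (by omega) (by omega)

theorem inner_035_step (k : ℕ) (hk : 7 ≤ k) (ih : Inner 5 2 0 16 490 k) :
    Inner 5 2 0 16 490 (k + 2) := by
  intro R hp hlo hhi
  have hX : 3 ^ (k + 2) = 9 * 3 ^ k := by ring
  rw [hX] at hlo hhi
  have hodd : 3 ^ k % 2 = 1 := three_pow_odd k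
  have hbig : 3 ^ 7 ≤ 3 ^ k := Nat.pow_le_pow_right (by norm_num) hk
  norm_num at hbig
  have key : ∀ d1 d2 d3 R' : ℕ, d1 ≤ 2 → d2 ≤ 2 → d3 ≤ 2 →
      R = (2 - d1) + (2 - d2) + (2 - d3) + 3 * R' + (d1 * 729 + d2 * 27 + d3 * 3) * 3 ^ k →
      R' % 2 = ((k + 5) + (k + 2) + (k + 0)) % 2 → 16 * 3 ^ k ≤ 2 * R' + 3 →
      2 * R' + 3 ≤ 490 * 3 ^ k → Sum3 (k + 2 + 5) (k + 2 + 2) (k + 2 + 0) R := by
    intro d1 d2 d3 R' h1 h2 h3 hR hp' hlo' hhi'
    have h := (ih R' hp' hlo' hhi').step d1 d2 d3 h1 h2 h3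
    have e1 : k + 2 + 5 = k + 5 + 2 := by ring
    have e2 : k + 2 + 2 = k + 2 + 2 := by ring
    have e3 : k + 2 + 0 = k + 0 + 2 := by ring
    rw [e1, e2, e3, hR]
    convert h using 2
    ring
  generalize 3 ^ k = X at *
  have h3 : R % 3 = 0 ∨ R % 3 = 1 ∨ R % 3 = 2 := by omega
  rcases h3 with h3 | h3 | h3
  · rcases lt_or_ge (2 * R + 3) (1527 * X) with h | h
    · exact key 0 1 2 ((R - 3 - 33 * X) / 3) (by omega) (by omega) (by omega) (by omega) (by omega) (by omega) (by omega)
    · rcases lt_or_ge (2 * R + 3) (2277 * X) with h | h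
      · exact key 1 0 2 ((R - 3 - 735 * X) / 3) (by omega) (by omega) (by omega) (by omega) (by omega) (by omega) (by omega)
      · rcases lt_or_ge (2 * R + 3) (3027 * X) with h | h
        · exact key 1 2 0 ((R - 3 - 783 * X) / 3) (by omega) (by omega) (by omega) (by omega) (by omega) (by omega) (by omega)
        · exact key 2 1 0 ((R - 3 - 1485 * X) / 3) (by omega) (by omega) (by omega) (by omega) (by omega) (by omega) (by omega)
  · rcases lt_or_ge (2 * R + 3) (1521 * X) with h | h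
    · exact key 0 1 1 ((R - 4 - 30 * X) / 3) (by omega) (by omega) (by omega) (by omega) (by omega) (by omega) (by omega)
    · rcases lt_or_ge (2 * R + 3) (2280 * X) with h | h
      · exact key 1 0 1 ((R - 4 - 732 * X) / 3) (by omega) (by omega) (by omega) (by omega) (by omega) (by omega) (by omega)
      · rcases lt_or_ge (2 * R + 3) (3039 * X) with h | h
        · exact key 1 2 2 ((R - 1 - 789 * X) / 3) (by omega) (by omega) (by omega) (by omega) (by omega) (by omega) (by omega)
        · exact key 2 1 2 ((R - 1 - 1491 * X) / 3) (by omega) (by omega) (by omega) (by omega) (by omega) (by omega) (by omega)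
  · rcases lt_or_ge (2 * R + 3) (1515 * X) with h | h
    · exact key 0 1 0 ((R - 5 - 27 * X) / 3) (by omega) (by omega) (by omega) (by omega) (by omega) (by omega) (by omega)
    · rcases lt_or_ge (2 * R + 3) (2274 * X) with h | h
      · exact key 1 0 0 ((R - 5 - 729 * X) / 3) (by omega) (by omega) (by omega) (by omega) (by omega) (by omega) (by omega)
      · rcases lt_or_ge (2 * R + 3) (3033 * X) with h | h
        · exact key 1 2 1 ((R - 2 - 786 * X) / 3) (by omega) (by omega) (by omega) (by omega) (by omega) (by omega) (by omega)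
        · exact key 2 1 1 ((R - 2 - 1488 * X) / 3) (by omega) (by omega) (by omega) (by omega) (by omega) (by omega) (by omega)


theorem two_step {P : ℕ → Prop} {k0 : ℕ} (h0 : P k0) (h1 : P (k0 + 1))
    (hs : ∀ k, k0 ≤ k → P k → P (k + 2)) : ∀ k, k0 ≤ k → P k := by
  have h : ∀ j, P (k0 + j) ∧ P (k0 + j + 1) := by
    intro j
    induction j with
    | zero => exact ⟨h0, h1⟩
    | succ j ih => exact ⟨ih.2, hs (k0 + j) (by omega) ih.1⟩
  intro k hk
  have h2 := (h (k - k0)).1
  rwa [Nat.add_sub_cancel' hk] at h2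


theorem inner_012_base2 : Inner 2 1 0 4 22 2 := by
  intro R hp hlo hhi
  have hb : base 4 + base 3 + base 2 = 15 := by decide +kernel
  have hc : Nat.beq (Nat.land (Nat.shiftRight (mask3 4 3 2) 2) (pat 41)) (pat 41) = true := by
    decide +kernel
  have h := base_check hc
  rw [hb] at h
  norm_num at hp hlo hhi
  have hR : R = 15 + (2 + 2 * ((R - 17) / 2)) := by omega
  rw [hR]
  exact h _ (by omega)

theorem inner_012_base3 : Inner 2 1 0 4 22 3 := by
  intro R hp hlo hhi
  have hb : base 5 + base 4 + base 3 = 30 := by decide +kernel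
  have hc : Nat.beq (Nat.land (Nat.shiftRight (mask3 5 4 3) 24) (pat 121)) (pat 121) = true := by
    decide +kernel
  have h := base_check hc
  rw [hb] at h
  norm_num at hp hlo hhi
  have hR : R = 30 + (24 + 2 * ((R - 54) / 2)) := by omega
  rw [hR]
  exact h _ (by omega)

theorem inner_012 : ∀ k, 2 ≤ k → Inner 2 1 0 4 22 k :=
  two_step inner_012_base2 inner_012_base3 inner_012_step


theorem inner_013_base4 : Inner 3 2 0 10 64 4 := by
  intro R hp hlo hhi
  have hb : base 7 + base 6 + base 4 = 87 := by decide +kernel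
  have hc : Nat.beq (Nat.land (Nat.shiftRight (mask3 7 6 4) 318) (pat 1093)) (pat 1093) = true := by
    decide +kernel
  have h := base_check hc
  rw [hb] at h
  norm_num at hp hlo hhi
  have hR : R = 87 + (318 + 2 * ((R - 405) / 2)) := by omega
  rw [hR]
  exact h _ (by omega)

theorem inner_013_base5 : Inner 3 2 0 10 64 5 := by
  intro R hp hlo hhi
  have hb : base 8 + base 7 + base 5 = 150 := by decide +kernel
  have hc : Nat.beq (Nat.land (Nat.shiftRight (mask3 8 7 5) 1064) (pat 3281)) (pat 3281) = true := by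
    decide +kernel
  have h := base_check hc
  rw [hb] at h
  norm_num at hp hlo hhi
  have hR : R = 150 + (1064 + 2 * ((R - 1214) / 2)) := by omega
  rw [hR]
  exact h _ (by omega)

theorem inner_013 : ∀ k, 4 ≤ k → Inner 3 2 0 10 64 k :=
  two_step inner_013_base4 inner_013_base5 inner_013_step


theorem inner_023_base5 : Inner 3 1 0 4 58 5 := by
  intro R hp hlo hhi
  have hb : base 8 + base 6 + base 5 = 123 := by decide +kernel
  have hc : Nat.beq (Nat.land (Nat.shiftRight (mask3 8 6 5) 362) (pat 3281)) (pat 3281) = true := by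
    decide +kernel
  have h := base_check hc
  rw [hb] at h
  norm_num at hp hlo hhi
  have hR : R = 123 + (362 + 2 * ((R - 485) / 2)) := by omega
  rw [hR]
  exact h _ (by omega)

theorem inner_023_base6 : Inner 3 1 0 4 58 6 := by
  intro R hp hlo hhi
  have hb : base 9 + base 7 + base 6 = 240 := by decide +kernel
  have hc : Nat.beq (Nat.land (Nat.shiftRight (mask3 9 7 6) 1218) (pat 9841)) (pat 9841) = true := by
    decide +kernel
  have h := base_check hc
  rw [hb] at h
  norm_num at hp hlo hhi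
  have hR : R = 240 + (1218 + 2 * ((R - 1458) / 2)) := by omega
  rw [hR]
  exact h _ (by omega)

theorem inner_023 : ∀ k, 5 ≤ k → Inner 3 1 0 4 58 k :=
  two_step inner_023_base5 inner_023_base6 inner_023_step


theorem inner_034_base7 : Inner 4 1 0 6 164 7 := by
  intro R hp hlo hhi
  have hb : base 11 + base 8 + base 7 = 618 := by decide +kernel
  have hc : Nat.beq (Nat.land (Nat.shiftRight (mask3 11 8 7) 5942) (pat 86387)) (pat 86387) = true := by
    decide +kernel
  have h := base_check hc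
  rw [hb] at h
  norm_num at hp hlo hhi
  have hR : R = 618 + (5942 + 2 * ((R - 6560) / 2)) := by omega
  rw [hR]
  exact h _ (by omega)

theorem inner_034_base8 : Inner 4 1 0 6 164 8 := by
  intro R hp hlo hhi
  have hb : base 12 + base 9 + base 8 = 969 := by decide +kernel
  have hc : Nat.beq (Nat.land (Nat.shiftRight (mask3 12 9 8) 18714) (pat 259159)) (pat 259159) = true := by
    decide +kernel
  have h := base_check hc
  rw [hb] at h
  norm_num at hp hlo hhi
  have hR : R = 969 + (18714 + 2 * ((R - 19683) / 2)) := by omega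
  rw [hR]
  exact h _ (by omega)

theorem inner_034 : ∀ k, 7 ≤ k → Inner 4 1 0 6 164 k :=
  two_step inner_034_base7 inner_034_base8 inner_034_step


theorem inner_035_base7 : Inner 5 2 0 16 490 7 := by
  intro R hp hlo hhi
  have hb : base 12 + base 9 + base 7 = 942 := by decide +kernel
  have hc : Nat.beq (Nat.land (Nat.shiftRight (mask3 12 9 7) 16554) (pat 259159)) (pat 259159) = true := by
    decide +kernel
  have h := base_check hc
  rw [hb] at h
  norm_num at hp hlo hhi
  have hR : R = 942 + (16554 + 2 * ((R - 17496) / 2)) := by omega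
  rw [hR]
  exact h _ (by omega)

theorem inner_035_base8 : Inner 5 2 0 16 490 8 := by
  intro R hp hlo hhi
  have hb : base 13 + base 10 + base 8 = 1779 := by decide +kernel
  have hc : Nat.beq (Nat.land (Nat.shiftRight (mask3 13 10 8) 50708) (pat 777479)) (pat 777479) = true := by
    decide +kernel
  have h := base_check hc
  rw [hb] at h
  norm_num at hp hlo hhi
  have hR : R = 1779 + (50708 + 2 * ((R - 52487) / 2)) := by omega
  rw [hR]
  exact h _ (by omega)

theorem inner_035 : ∀ k, 7 ≤ k → Inner 5 2 0 16 490 k :=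
  two_step inner_035_base7 inner_035_base8 inner_035_step


/-- `N` is a sum of at most `j` antipalindromic numbers -/
def RepK (j N : ℕ) : Prop :=
  ∃ l : List ℕ, l.length ≤ j ∧ (∀ a ∈ l, Antipalindromic a) ∧ l.sum = N

theorem rep_of_Sum3 {L1 L2 L3 R : ℕ} (h : Sum3 L1 L2 L3 R) (d1 d2 d3 : ℕ)
    (h1 : 1 ≤ d1 ∧ d1 ≤ 2) (h2 : 1 ≤ d2 ∧ d2 ≤ 2) (h3 : 1 ≤ d3 ∧ d3 ≤ 2) :
    RepK 3 ((2 - d1) + (2 - d2) + (2 - d3) + 3 * R
      + (d1 * 3 ^ (L1 + 1) + d2 * 3 ^ (L2 + 1) + d3 * 3 ^ (L3 + 1))) := by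
  obtain ⟨y1, y2, y3, q1, q2, q3, hR⟩ := h
  refine ⟨[(2 - d1) + 3 * y1 + d1 * 3 ^ (L1 + 1), (2 - d2) + 3 * y2 + d2 * 3 ^ (L2 + 1),
    (2 - d3) + 3 * y3 + d3 * 3 ^ (L3 + 1)], by simp, ?_, ?_⟩
  · intro a ha
    simp only [List.mem_cons, List.not_mem_nil, or_false] at ha
    rcases ha with rfl | rfl | rfl
    · exact anti_of_Q q1 h1.1 h1.2
    · exact anti_of_Q q2 h2.1 h2.2
    · exact anti_of_Q q3 h3.1 h3.2
  · simp only [List.sum_cons, List.sum_nil, hR]
    ring


theorem outer (m N : ℕ) (hm : 7 ≤ m) (hlo : 729 * 3 ^ m ≤ N) (hhi : N < 2187 * 3 ^ m) :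
    RepK 3 N := by
  have hodd : 3 ^ m % 2 = 1 := three_pow_odd m
  have hbig : 3 ^ 7 ≤ 3 ^ m := Nat.pow_le_pow_right (by norm_num) hm
  norm_num at hbig
  have k035 : ∀ d1 d2 d3 R' : ℕ, 1 ≤ d1 ∧ d1 ≤ 2 → 1 ≤ d2 ∧ d2 ≤ 2 → 1 ≤ d3 ∧ d3 ≤ 2 →
      N = (2 - d1) + (2 - d2) + (2 - d3) + 3 * R' + (d1 * 729 + d2 * 27 + d3 * 3) * 3 ^ m →
      R' % 2 = ((m + 5) + (m + 2) + (m + 0)) % 2 → 16 * 3 ^ m ≤ 2 * R' + 3 →
      2 * R' + 3 ≤ 490 * 3 ^ m → RepK 3 N := by
    intro d1 d2 d3 R' h1 h2 h3 hR hp' hlo' hhi'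
    have hX : 3 ^ (m) = 1 * 3 ^ m := by simp
    have h := rep_of_Sum3 (inner_035 (m) (by omega) R' (by omega) (by rw [hX]; omega)
      (by rw [hX]; omega)) d1 d2 d3 h1 h2 h3
    rw [hR]
    convert h using 2
    ring
  have k034 : ∀ d1 d2 d3 R' : ℕ, 1 ≤ d1 ∧ d1 ≤ 2 → 1 ≤ d2 ∧ d2 ≤ 2 → 1 ≤ d3 ∧ d3 ≤ 2 →
      N = (2 - d1) + (2 - d2) + (2 - d3) + 3 * R' + (d1 * 729 + d2 * 27 + d3 * 9) * 3 ^ m →
      R' % 2 = ((m + 5) + (m + 2) + (m + 1)) % 2 → 18 * 3 ^ m ≤ 2 * R' + 3 →
      2 * R' + 3 ≤ 492 * 3 ^ m → RepK 3 N := by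
    intro d1 d2 d3 R' h1 h2 h3 hR hp' hlo' hhi'
    have hX : 3 ^ (m + 1) = 3 * 3 ^ m := by ring
    have h := rep_of_Sum3 (inner_034 (m + 1) (by omega) R' (by omega) (by rw [hX]; omega)
      (by rw [hX]; omega)) d1 d2 d3 h1 h2 h3
    rw [hR]
    convert h using 2
    ring
  have k013 : ∀ d1 d2 d3 R' : ℕ, 1 ≤ d1 ∧ d1 ≤ 2 → 1 ≤ d2 ∧ d2 ≤ 2 → 1 ≤ d3 ∧ d3 ≤ 2 →
      N = (2 - d1) + (2 - d2) + (2 - d3) + 3 * R' + (d1 * 729 + d2 * 243 + d3 * 27) * 3 ^ m →
      R' % 2 = ((m + 5) + (m + 4) + (m + 2)) % 2 → 90 * 3 ^ m ≤ 2 * R' + 3 →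
      2 * R' + 3 ≤ 576 * 3 ^ m → RepK 3 N := by
    intro d1 d2 d3 R' h1 h2 h3 hR hp' hlo' hhi'
    have hX : 3 ^ (m + 2) = 9 * 3 ^ m := by ring
    have h := rep_of_Sum3 (inner_013 (m + 2) (by omega) R' (by omega) (by rw [hX]; omega)
      (by rw [hX]; omega)) d1 d2 d3 h1 h2 h3
    rw [hR]
    convert h using 2
    ring
  have k023 : ∀ d1 d2 d3 R' : ℕ, 1 ≤ d1 ∧ d1 ≤ 2 → 1 ≤ d2 ∧ d2 ≤ 2 → 1 ≤ d3 ∧ d3 ≤ 2 →
      N = (2 - d1) + (2 - d2) + (2 - d3) + 3 * R' + (d1 * 729 + d2 * 81 + d3 * 27) * 3 ^ m →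
      R' % 2 = ((m + 5) + (m + 3) + (m + 2)) % 2 → 36 * 3 ^ m ≤ 2 * R' + 3 →
      2 * R' + 3 ≤ 522 * 3 ^ m → RepK 3 N := by
    intro d1 d2 d3 R' h1 h2 h3 hR hp' hlo' hhi'
    have hX : 3 ^ (m + 2) = 9 * 3 ^ m := by ring
    have h := rep_of_Sum3 (inner_023 (m + 2) (by omega) R' (by omega) (by rw [hX]; omega)
      (by rw [hX]; omega)) d1 d2 d3 h1 h2 h3
    rw [hR]
    convert h using 2
    ring
  have k134 : ∀ d1 d2 d3 R' : ℕ, 1 ≤ d1 ∧ d1 ≤ 2 → 1 ≤ d2 ∧ d2 ≤ 2 → 1 ≤ d3 ∧ d3 ≤ 2 →
      N = (2 - d1) + (2 - d2) + (2 - d3) + 3 * R' + (d1 * 243 + d2 * 27 + d3 * 9) * 3 ^ m →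
      R' % 2 = ((m + 4) + (m + 2) + (m + 1)) % 2 → 12 * 3 ^ m ≤ 2 * R' + 3 →
      2 * R' + 3 ≤ 174 * 3 ^ m → RepK 3 N := by
    intro d1 d2 d3 R' h1 h2 h3 hR hp' hlo' hhi'
    have hX : 3 ^ (m + 1) = 3 * 3 ^ m := by ring
    have h := rep_of_Sum3 (inner_023 (m + 1) (by omega) R' (by omega) (by rw [hX]; omega)
      (by rw [hX]; omega)) d1 d2 d3 h1 h2 h3
    rw [hR]
    convert h using 2
    ring
  have k123 : ∀ d1 d2 d3 R' : ℕ, 1 ≤ d1 ∧ d1 ≤ 2 → 1 ≤ d2 ∧ d2 ≤ 2 → 1 ≤ d3 ∧ d3 ≤ 2 →
      N = (2 - d1) + (2 - d2) + (2 - d3) + 3 * R' + (d1 * 243 + d2 * 81 + d3 * 27) * 3 ^ m →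
      R' % 2 = ((m + 4) + (m + 3) + (m + 2)) % 2 → 36 * 3 ^ m ≤ 2 * R' + 3 →
      2 * R' + 3 ≤ 198 * 3 ^ m → RepK 3 N := by
    intro d1 d2 d3 R' h1 h2 h3 hR hp' hlo' hhi'
    have hX : 3 ^ (m + 2) = 9 * 3 ^ m := by ring
    have h := rep_of_Sum3 (inner_012 (m + 2) (by omega) R' (by omega) (by rw [hX]; omega)
      (by rw [hX]; omega)) d1 d2 d3 h1 h2 h3
    rw [hR]
    convert h using 2
    ring
  have k124 : ∀ d1 d2 d3 R' : ℕ, 1 ≤ d1 ∧ d1 ≤ 2 → 1 ≤ d2 ∧ d2 ≤ 2 → 1 ≤ d3 ∧ d3 ≤ 2 →
      N = (2 - d1) + (2 - d2) + (2 - d3) + 3 * R' + (d1 * 243 + d2 * 81 + d3 * 9) * 3 ^ m →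
      R' % 2 = ((m + 4) + (m + 3) + (m + 1)) % 2 → 30 * 3 ^ m ≤ 2 * R' + 3 →
      2 * R' + 3 ≤ 192 * 3 ^ m → RepK 3 N := by
    intro d1 d2 d3 R' h1 h2 h3 hR hp' hlo' hhi'
    have hX : 3 ^ (m + 1) = 3 * 3 ^ m := by ring
    have h := rep_of_Sum3 (inner_013 (m + 1) (by omega) R' (by omega) (by rw [hX]; omega)
      (by rw [hX]; omega)) d1 d2 d3 h1 h2 h3
    rw [hR]
    convert h using 2
    ring
  generalize 3 ^ m = X at *
  have h3 : N % 3 = 0 ∨ N % 3 = 1 ∨ N % 3 = 2 := by omega
  have h2 : (N + m) % 2 = 1 ∨ (N + m) % 2 = 0 := by omega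
  rcases h2 with h2 | h2
  · rcases h3 with h3 | h3 | h3
    · rcases lt_or_ge N (801 * X) with h | h
      · exact k134 2 2 2 ((N - 0 - 558 * X) / 3) (by omega) (by omega) (by omega) (by omega) (by omega) (by omega) (by omega)
      · rcases lt_or_ge N (1314 * X) with h | h
        · exact k035 1 1 1 ((N - 3 - 759 * X) / 3) (by omega) (by omega) (by omega) (by omega) (by omega) (by omega) (by omega)
        · rcases lt_or_ge N (1702 * X) with h | h
          · exact k013 1 1 1 ((N - 3 - 999 * X) / 3) (by omega) (by omega) (by omega) (by omega) (by omega) (by omega) (by omega)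
          · exact k035 2 2 2 ((N - 0 - 1518 * X) / 3) (by omega) (by omega) (by omega) (by omega) (by omega) (by omega) (by omega)
    · rcases lt_or_ge N (865 * X) with h | h
      · exact k123 2 1 2 ((N - 1 - 621 * X) / 3) (by omega) (by omega) (by omega) (by omega) (by omega) (by omega) (by omega)
      · rcases lt_or_ge N (1519 * X) with h | h
        · exact k035 1 2 2 ((N - 1 - 789 * X) / 3) (by omega) (by omega) (by omega) (by omega) (by omega) (by omega) (by omega)
        · exact k035 2 1 2 ((N - 1 - 1491 * X) / 3) (by omega) (by omega) (by omega) (by omega) (by omega) (by omega) (by omega)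
    · rcases lt_or_ge N (850 * X) with h | h
      · exact k123 2 1 1 ((N - 2 - 594 * X) / 3) (by omega) (by omega) (by omega) (by omega) (by omega) (by omega) (by omega)
      · rcases lt_or_ge N (1516 * X) with h | h
        · exact k035 1 2 1 ((N - 2 - 786 * X) / 3) (by omega) (by omega) (by omega) (by omega) (by omega) (by omega) (by omega)
        · exact k035 2 1 1 ((N - 2 - 1488 * X) / 3) (by omega) (by omega) (by omega) (by omega) (by omega) (by omega) (by omega)
  · rcases h3 with h3 | h3 | h3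
    · rcases lt_or_ge N (922 * X) with h | h
      · exact k124 2 2 2 ((N - 0 - 666 * X) / 3) (by omega) (by omega) (by omega) (by omega) (by omega) (by omega) (by omega)
      · rcases lt_or_ge N (1588 * X) with h | h
        · exact k023 1 1 1 ((N - 3 - 837 * X) / 3) (by omega) (by omega) (by omega) (by omega) (by omega) (by omega) (by omega)
        · exact k034 2 2 2 ((N - 0 - 1530 * X) / 3) (by omega) (by omega) (by omega) (by omega) (by omega) (by omega) (by omega)
    · rcases lt_or_ge N (886 * X) with h | h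
      · exact k124 2 2 1 ((N - 1 - 657 * X) / 3) (by omega) (by omega) (by omega) (by omega) (by omega) (by omega) (by omega)
      · rcases lt_or_ge N (1534 * X) with h | h
        · exact k034 1 2 2 ((N - 1 - 801 * X) / 3) (by omega) (by omega) (by omega) (by omega) (by omega) (by omega) (by omega)
        · exact k034 2 1 2 ((N - 1 - 1503 * X) / 3) (by omega) (by omega) (by omega) (by omega) (by omega) (by omega) (by omega)
    · rcases lt_or_ge N (841 * X) with h | h
      · exact k124 2 1 1 ((N - 2 - 576 * X) / 3) (by omega) (by omega) (by omega) (by omega) (by omega) (by omega) (by omega)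
      · rcases lt_or_ge N (1525 * X) with h | h
        · exact k034 1 2 1 ((N - 2 - 792 * X) / 3) (by omega) (by omega) (by omega) (by omega) (by omega) (by omega) (by omega)
        · exact k034 2 1 1 ((N - 2 - 1494 * X) / 3) (by omega) (by omega) (by omega) (by omega) (by omega) (by omega) (by omega)

theorem rep_large (N : ℕ) (hN : 3 ^ 13 ≤ N) : RepK 3 N := by
  have hN0 : N ≠ 0 := by
    have : 0 < 3 ^ 13 := by norm_num
    omega
  have h1 : 3 ^ (Nat.log 3 N) ≤ N := Nat.pow_log_le_self 3 hN0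
  have h2 : N < 3 ^ (Nat.log 3 N + 1) := Nat.lt_pow_succ_log_self (by norm_num) N
  have h3 : 13 ≤ Nat.log 3 N := Nat.le_log_of_pow_le (by norm_num) hN
  obtain ⟨m, hm⟩ : ∃ m, Nat.log 3 N = m + 6 := ⟨Nat.log 3 N - 6, by omega⟩
  rw [hm] at h1 h2 h3
  have e1 : 3 ^ (m + 6) = 729 * 3 ^ m := by ring
  have e2 : 3 ^ (m + 6 + 1) = 2187 * 3 ^ m := by ring
  rw [e1] at h1
  rw [e2] at h2
  exact outer m N (by omega) h1 h2

/-- add one antipalindromic number of length `L` -/
def addAnti : ℕ → ℕ → ℕ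
  | 0, m => m
  | 1, m => Nat.shiftLeft m 1
  | L + 2, m => maskFrom (Nat.lor (Nat.shiftLeft m (base (L + 2) + (3 ^ (L + 1) - 1)))
      (Nat.shiftLeft m (base (L + 2) + 2 * (3 ^ (L + 1) - 1)))) ((steps L).map fun v => 3 * v)

theorem addAnti_spec {L m x : ℕ} (h : (addAnti (L + 1) m).testBit x = true) :
    ∃ a y, Antipalindromic a ∧ m.testBit y = true ∧ x = a + y := by
  match L, h with
  | 0, h =>
    obtain ⟨h1, h2⟩ := testBit_shl h
    exact ⟨1, x - 1, anti_one, h2, by omega⟩
  | L + 1, h =>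
    rw [addAnti] at h
    obtain ⟨y, z, hy, hz, hx⟩ := maskFrom_spec _ _ _ h
    obtain ⟨z', hz', hzz⟩ := hz.map_three
    have hQ := Q_of_G L z' hz'
    have h3 : 1 ≤ 3 ^ (L + 1) := Nat.one_le_pow _ _ (by norm_num)
    have hb : base (L + 2) = 2 + 3 * base L := rfl
    rcases testBit_lor' hy with h1 | h1
    · obtain ⟨h4, h5⟩ := testBit_shl h1
      refine ⟨_, _, anti_of_Q hQ (le_refl 1) (by norm_num : 1 ≤ 2), h5, ?_⟩
      omega
    · obtain ⟨h4, h5⟩ := testBit_shl h1
      refine ⟨_, _, anti_of_Q hQ (by norm_num : 1 ≤ 2) (le_refl 2), h5, ?_⟩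
      omega

def addAll : ℕ → ℕ → ℕ
  | 0, m => m
  | k + 1, m => Nat.lor (addAnti (k + 1) m) (addAll k m)

theorem addAll_spec {j m : ℕ} (hm : ∀ x, m.testBit x = true → RepK j x) :
    ∀ k x, (addAll k m).testBit x = true → RepK (j + 1) x := by
  intro k
  induction k with
  | zero =>
    intro x h
    obtain ⟨l, h1, h2, h3⟩ := hm x h
    exact ⟨l, by omega, h2, h3⟩
  | succ k ih =>
    intro x h
    rcases testBit_lor' h with h | h
    · obtain ⟨a, y, ha, hy, hx⟩ := addAnti_spec h
      obtain ⟨l, h1, h2, h3⟩ := hm y hy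
      refine ⟨a :: l, by simp; omega, ?_, by simp [h3, hx]⟩
      intro b hb
      rcases List.mem_cons.1 hb with rfl | hb
      · exact ha
      · exact h2 b hb
    · exact ih x h

def allMask : ℕ := addAll 13 (addAll 13 (addAll 13 1))

theorem allMask_spec {x : ℕ} (h : allMask.testBit x = true) : RepK 3 x := by
  refine addAll_spec (fun y hy => ?_) 13 x h
  refine addAll_spec (fun y hy => ?_) 13 y hy
  refine addAll_spec (fun y hy => ?_) 13 y hy
  have := testBit_one hy
  exact ⟨[], by simp, by simp, by simp [this]⟩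

def exc : ℕ := Nat.lor (Nat.lor 1 (Nat.shiftLeft 1 24)) (Nat.lor (Nat.lor (Nat.shiftLeft 1 37)
  (Nat.shiftLeft 1 49)) (Nat.lor (Nat.shiftLeft 1 117) (Nat.shiftLeft 1 421)))

theorem exc_spec {x : ℕ} (h : exc.testBit x = true) :
    x = 0 ∨ x = 24 ∨ x = 37 ∨ x = 49 ∨ x = 117 ∨ x = 421 := by
  have key : ∀ v, (Nat.shiftLeft 1 v).testBit x = true → x = v := by
    intro v hv
    obtain ⟨h1, h2⟩ := testBit_shl hv
    have := testBit_one h2
    omega
  rcases testBit_lor' h with h | h
  · rcases testBit_lor' h with h | h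
    · exact Or.inl (testBit_one h)
    · exact Or.inr (Or.inl (key _ h))
  · rcases testBit_lor' h with h | h
    · rcases testBit_lor' h with h | h
      · have := key _ h
        omega
      · have := key _ h
        omega
    · rcases testBit_lor' h with h | h
      · have := key _ h
        omega
      · have := key _ h
        omega

def isFull (T n : ℕ) : Bool := Nat.beq (Nat.land T (2 ^ n - 1)) (2 ^ n - 1)

theorem isFull_spec {T n : ℕ} (h : isFull T n = true) (N : ℕ) (hN : N < n) :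
    T.testBit N = true := by
  have h1 := Nat.eq_of_beq_eq_true h
  have h2 : (2 ^ n - 1).testBit N = true := by
    rw [Nat.testBit_two_pow_sub_one]
    simpa using hN
  rw [← h1] at h2
  have h3 : (T &&& (2 ^ n - 1)).testBit N = true := h2
  rw [Nat.testBit_and, Bool.and_eq_true] at h3
  exact h3.1

theorem allMask_check : isFull (Nat.lor allMask exc) 1594323 = true := by
  decide +kernel

theorem rep_small (N : ℕ) (hN : N < 3 ^ 13) :
    RepK 3 N ∨ N = 0 ∨ N = 24 ∨ N = 37 ∨ N = 49 ∨ N = 117 ∨ N = 421 := by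
  have h3 := isFull_spec allMask_check N (by norm_num at hN; exact hN)
  rcases testBit_lor' h3 with h | h
  · exact Or.inl (allMask_spec h)
  · exact Or.inr (exc_spec h)


/-- base 3 digits with explicit fuel -/
def dig : ℕ → ℕ → List ℕ
  | 0, _ => []
  | f + 1, n => if n = 0 then [] else (n % 3) :: dig f (n / 3)

theorem dig_eq : ∀ f n, n < 3 ^ f → dig f n = Nat.digits 3 n := by
  intro f
  induction f with
  | zero =>
    intro n hn
    have : n = 0 := by simpa using hn
    subst this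
    simp [dig]
  | succ f ih =>
    intro n hn
    rcases Nat.eq_zero_or_pos n with h0 | h0
    · subst h0
      simp [dig]
    · rw [dig, if_neg (by omega), Nat.digits_of_two_le_of_pos (by norm_num) h0, ih]
      rw [pow_succ] at hn
      omega

/-- Boolean necessary test -/
def antiB (a : ℕ) : Bool := (dig 6 a).map (fun d => 2 - d) == (dig 6 a).reverse

theorem antiB_of_anti {a : ℕ} (ha : a < 3 ^ 6) (h : Antipalindromic a) : antiB a = true := by
  unfold antiB
  rw [dig_eq 6 a ha, beq_iff_eq]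
  obtain ⟨-, h⟩ := h
  apply List.ext_getElem
  · simp
  · intro i h1 h2
    rw [List.getElem_map, List.getElem_reverse]
    rw [List.length_map] at h1
    have h3 := h i h1
    have h4 : (Nat.digits 3 a).length - 1 - i < (Nat.digits 3 a).length := by omega
    rw [List.getD_eq_getElem _ _ h1, List.getD_eq_getElem _ _ h4] at h3
    omega

/-- the antipalindromic numbers up to 421, and 0 -/
def smallAnti : List ℕ := (List.range 422).filter antiB

theorem mem_smallAnti {a : ℕ} (ha : a ≤ 421) (h : Antipalindromic a ∨ a = 0) :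
    a ∈ smallAnti := by
  unfold smallAnti
  rw [List.mem_filter, List.mem_range]
  refine ⟨by omega, ?_⟩
  rcases h with h | h
  · exact antiB_of_anti (by norm_num; omega) h
  · subst h
    decide

theorem smallAnti_check : (smallAnti.all fun a => smallAnti.all fun b => smallAnti.all fun c =>
    !(a + b + c == 24) && !(a + b + c == 37) && !(a + b + c == 49) && !(a + b + c == 117)
      && !(a + b + c == 421)) = true := by
  decide +kernel

theorem not_rep {N : ℕ} (hN : N = 24 ∨ N = 37 ∨ N = 49 ∨ N = 117 ∨ N = 421) : ¬ RepK 3 N := by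
  rintro ⟨l, hl, hanti, hsum⟩
  obtain ⟨a, b, c, ha, hb, hc, habc⟩ : ∃ a b c, (Antipalindromic a ∨ a = 0) ∧
      (Antipalindromic b ∨ b = 0) ∧ (Antipalindromic c ∨ c = 0) ∧ N = a + b + c := by
    match l, hl, hanti, hsum with
    | [], _, _, hsum => exact ⟨0, 0, 0, Or.inr rfl, Or.inr rfl, Or.inr rfl, by simpa using hsum.symm⟩
    | [a], _, hanti, hsum =>
      exact ⟨a, 0, 0, Or.inl (hanti a (by simp)), Or.inr rfl, Or.inr rfl, by simpa using hsum.symm⟩
    | [a, b], _, hanti, hsum =>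
      exact ⟨a, b, 0, Or.inl (hanti a (by simp)), Or.inl (hanti b (by simp)), Or.inr rfl,
        by simpa using hsum.symm⟩
    | [a, b, c], _, hanti, hsum =>
      exact ⟨a, b, c, Or.inl (hanti a (by simp)), Or.inl (hanti b (by simp)),
        Or.inl (hanti c (by simp)), by simp at hsum; omega⟩
    | _ :: _ :: _ :: _ :: _, hl, _, _ => simp at hl; omega
  have h421 : N ≤ 421 := by omega
  have h := smallAnti_check
  rw [List.all_eq_true] at h
  have h1 := h a (mem_smallAnti (by omega) ha)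
  rw [List.all_eq_true] at h1
  have h2 := h1 b (mem_smallAnti (by omega) hb)
  rw [List.all_eq_true] at h2
  have h3 := h2 c (mem_smallAnti (by omega) hc)
  rw [← habc] at h3
  rcases hN with rfl | rfl | rfl | rfl | rfl <;> simp at h3

/-- `N` is a sum of one, two or three (not necessarily distinct) numbers that are
antipalindromic in base 3. -/
def IsSumOfAtMostThree (N : ℕ) : Prop :=
  ∃ l : List ℕ, l ≠ [] ∧ l.length ≤ 3 ∧ (∀ a ∈ l, Antipalindromic a) ∧ l.sum = N

/-- A positive integer is a sum of at most three base-3 antipalindromic numbers if and only if it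
is none of `24, 37, 49, 117, 421`. -/
theorem result (N : ℕ) (hN : 0 < N) :
    IsSumOfAtMostThree N ↔ N ∉ ({24, 37, 49, 117, 421} : Finset ℕ) := by
  constructor
  · rintro ⟨l, -, h1, h2, h3⟩ hmem
    refine not_rep (N := N) ?_ ⟨l, h1, h2, h3⟩
    simpa using hmem
  · intro hmem
    have hmem' : N ≠ 24 ∧ N ≠ 37 ∧ N ≠ 49 ∧ N ≠ 117 ∧ N ≠ 421 := by
      simpa [not_or] using hmem
    have hrep : RepK 3 N := by
      rcases Nat.lt_or_ge N (3 ^ 13) with h | h
      · rcases rep_small N h with h1 | h1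
        · exact h1
        · omega
      · exact rep_large N h
    obtain ⟨l, h1, h2, h3⟩ := hrep
    refine ⟨l, ?_, h1, h2, h3⟩
    rintro rfl
    simp at h3
    omega

end Pool.Agent.Results.MP_8ef15a_nt.SumThreeAntipal
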